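import Mathlib
import Pool.Agent.U398.MV.Stm4

/-!
# Project MV4, package CW: preparations
-/

set_option autoImplicit false

namespace Pool.Agent.U251.MV4

open MeasureTheory Filter Topology Set Pool.Agent.U398.MV
open scoped Nat

noncomputable section

/-- measurable and locally bounded -/
structure LB (h : ℝ → ℝ) : Prop where
  meas : Measurable h
  bdd : ∀ b : ℝ, ∃ B : ℝ, ∀ t, |t| ≤ b → |h t| ≤ B

theorem LB.ii {h : ℝ → ℝ} (H : LB h) (a b : ℝ) : IntervalIntegrable h volume a b := by
  obtain ⟨B, hB⟩ := H.bdd (|a| + |b|)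
  rw [intervalIntegrable_iff]
  refine Measure.integrableOn_of_bounded (M := B) ?_ H.meas.aestronglyMeasurable ?_
  · exact (measure_Ioc_lt_top (a := min a b) (b := max a b)).ne
  · filter_upwards [ae_restrict_mem measurableSet_uIoc] with t ht
    have h1 : min a b < t ∧ t ≤ max a b := ht
    have a1 := le_abs_self a
    have a2 := le_abs_self b
    have a3 := neg_abs_le a
    have a4 := neg_abs_le b
    have a5 := abs_nonneg a
    have a6 := abs_nonneg b
    apply hB
    rw [abs_le]
    rcases le_total a b with h | h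
    · rw [min_eq_left h, max_eq_right h] at h1
      constructor <;> linarith [h1.1, h1.2]
    · rw [min_eq_right h, max_eq_left h] at h1
      constructor <;> linarith [h1.1, h1.2]

theorem LB.shift {h : ℝ → ℝ} (H : LB h) (x : ℝ) : LB fun t => h (t + x) := by
  refine ⟨H.meas.comp (measurable_id.add_const x), fun b => ?_⟩
  obtain ⟨B, hB⟩ := H.bdd (b + |x|)
  exact ⟨B, fun t ht => hB _ ((abs_add_le t x).trans (by linarith))⟩

theorem LB.sub {h k : ℝ → ℝ} (H : LB h) (K : LB k) : LB fun t => h t - k t := by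
  refine ⟨H.meas.sub K.meas, fun b => ?_⟩
  obtain ⟨B, hB⟩ := H.bdd b
  obtain ⟨B', hB'⟩ := K.bdd b
  refine ⟨B + B', fun t ht => (abs_sub _ _).trans (add_le_add (hB t ht) (hB' t ht))⟩

theorem LB.add {h k : ℝ → ℝ} (H : LB h) (K : LB k) : LB fun t => h t + k t := by
  refine ⟨H.meas.add K.meas, fun b => ?_⟩
  obtain ⟨B, hB⟩ := H.bdd b
  obtain ⟨B', hB'⟩ := K.bdd b
  refine ⟨B + B', fun t ht => (abs_add_le _ _).trans (add_le_add (hB t ht) (hB' t ht))⟩

theorem LB.cmul {h : ℝ → ℝ} (H : LB h) (c : ℝ) : LB fun t => c * h t := by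
  refine ⟨H.meas.const_mul c, fun b => ?_⟩
  obtain ⟨B, hB⟩ := H.bdd b
  refine ⟨|c| * B, fun t ht => ?_⟩
  rw [abs_mul]
  exact mul_le_mul_of_nonneg_left (hB t ht) (abs_nonneg _)

theorem LB.pow {h : ℝ → ℝ} (H : LB h) (k : ℕ) : LB fun t => h t ^ k := by
  refine ⟨H.meas.pow_const k, fun b => ?_⟩
  obtain ⟨B, hB⟩ := H.bdd b
  refine ⟨B ^ k, fun t ht => ?_⟩
  rw [abs_pow]
  exact pow_le_pow_left₀ (abs_nonneg _) (hB t ht) k

theorem LB.abs {h : ℝ → ℝ} (H : LB h) : LB fun t => |h t| := by
  refine ⟨H.meas.abs, fun b => ?_⟩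
  obtain ⟨B, hB⟩ := H.bdd b
  exact ⟨B, fun t ht => by rw [abs_abs]; exact hB t ht⟩

theorem LB.const (c : ℝ) : LB fun _ => c := ⟨measurable_const, fun _ => ⟨|c|, fun _ _ => le_rfl⟩⟩

theorem LB.sum {ι : Type*} (s : Finset ι) {h : ι → ℝ → ℝ} (H : ∀ i ∈ s, LB (h i)) :
    LB fun t => ∑ i ∈ s, h i t := by
  classical
  induction s using Finset.induction_on with
  | empty => simpa using LB.const 0
  | insert a s ha ih =>
    simp_rw [Finset.sum_insert ha]
    exact (H a (Finset.mem_insert_self _ _)).add (ih fun i hi => H i (Finset.mem_insert_of_mem hi))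

theorem Mf_cont : Continuous Mf := by
  have h1 : Continuous fun t : ℝ => t / (2 * Real.pi) * Real.log (t / (2 * Real.pi)) :=
    Real.continuous_mul_log.comp (continuous_id.div_const _)
  exact h1.sub (continuous_id.div_const _)

theorem LB_sg {N : ℝ → ℕ} (hN : Monotone N) : LB (sg N) := by
  have h1 : LB fun t => (N t : ℝ) := by
    refine ⟨(show Monotone fun t => (N t : ℝ) from fun a b h => Nat.cast_le.2 (hN h)).measurable,
      fun b => ⟨N b, fun t ht => ?_⟩⟩
    rw [abs_of_nonneg (Nat.cast_nonneg _)]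
    exact_mod_cast hN ((le_abs_self t).trans ht)
  have h2 : LB Mf := by
    refine ⟨Mf_cont.measurable, fun b => ?_⟩
    obtain ⟨B, hB⟩ := (isCompact_Icc (a := -b) (b := b)).exists_bound_of_continuousOn
      Mf_cont.continuousOn
    exact ⟨B, fun t ht => hB t (abs_le.1 ht)⟩
  exact h1.sub h2

theorem LB_Gf {N : ℝ → ℕ} (hN : Monotone N) {m : ℕ} (c x : Fin m → ℝ) : LB (Gf N c x) := by
  unfold Gf
  exact LB.sum _ fun i _ => ((LB_sg hN).shift (x i)).cmul (c i)

/-- power mean inequality -/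
theorem jensen {m : ℕ} (c d : Fin m → ℝ) (hc : ∑ i, |c i| ≤ 1) {n : ℕ} (hn : 1 ≤ n) :
    |∑ i, c i * d i| ^ n ≤ ∑ i, |c i| * |d i| ^ n := by
  have h1 : |∑ i, c i * d i| ≤ ∑ i, |c i| * |d i| := by
    refine (Finset.abs_sum_le_sum_abs _ _).trans (le_of_eq ?_)
    exact Finset.sum_congr rfl fun i _ => abs_mul _ _
  refine (pow_le_pow_left₀ (abs_nonneg _) h1 n).trans ?_
  have h2 := Real.pow_arith_mean_le_arith_mean_pow (Finset.univ : Finset (Option (Fin m)))
    (fun o => o.elim (1 - ∑ i, |c i|) fun i => |c i|) (fun o => o.elim 0 fun i => |d i|)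
    (fun o _ => by
      cases o with
      | none => simpa using hc
      | some i => exact abs_nonneg _)
    (by simp [Fintype.sum_option])
    (fun o _ => by
      cases o with
      | none => exact le_rfl
      | some i => exact abs_nonneg _) n
  simpa [Fintype.sum_option, (show n ≠ 0 by omega)] using h2

/-- moments of linear forms in differences -/
theorem mom_lin {N : ℝ → ℕ} (hN : Monotone N) {p : ℕ} {B C T : ℝ} (hC : 0 < C) (hT : 10 ≤ T)
    (hM : ∀ x y : ℝ, |x| ≤ B → |y| ≤ B →
      (∫ t in (3 * T / 4)..(3 * T), (sg N (t + x) - sg N (t + y)) ^ (2 * p)) ≤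
      C * T * (1 + Real.log (1 + |x - y| * Real.log T)) ^ p) {m : ℕ} (c x y : Fin m → ℝ)
    (hc : ∑ i, |c i| ≤ 1) (hx : ∀ i, |x i| ≤ B) (hy : ∀ i, |y i| ≤ B) {E : ℝ} (hE : 0 ≤ E)
    (hxy : ∀ i, |x i - y i| * Real.log T ≤ E) :
    (∫ t in (3 * T / 4)..(3 * T), (∑ i, c i * (sg N (t + x i) - sg N (t + y i))) ^ (2 * p)) ≤
      (C + 3) * T * (1 + Real.log (1 + E)) ^ p := by
  have hL : 0 ≤ Real.log T := Real.log_nonneg (by linarith)
  have hT34 : 3 * T / 4 ≤ 3 * T := by linarith
  rcases Nat.eq_zero_or_pos p with hp | hp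
  · subst hp
    simp only [Nat.mul_zero, pow_zero, intervalIntegral.integral_const, smul_eq_mul, mul_one]
    nlinarith
  have hl : 0 ≤ Real.log (1 + E) := Real.log_nonneg (by linarith)
  have h1 : ∀ i, LB fun t => |c i| * (sg N (t + x i) - sg N (t + y i)) ^ (2 * p) := fun i =>
    ((((LB_sg hN).shift (x i)).sub ((LB_sg hN).shift (y i))).pow (2 * p)).cmul _
  have h2 : LB fun t => (∑ i, c i * (sg N (t + x i) - sg N (t + y i))) ^ (2 * p) :=
    (LB.sum _ fun i _ => ((((LB_sg hN).shift (x i)).sub ((LB_sg hN).shift (y i))).cmul _)).pow _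
  calc (∫ t in (3 * T / 4)..(3 * T), (∑ i, c i * (sg N (t + x i) - sg N (t + y i))) ^ (2 * p))
      ≤ ∫ t in (3 * T / 4)..(3 * T), ∑ i, |c i| * (sg N (t + x i) - sg N (t + y i)) ^ (2 * p) := by
        refine intervalIntegral.integral_mono_on hT34 (h2.ii _ _) ((LB.sum _ fun i _ => h1 i).ii _ _)
          fun t _ => ?_
        have h3 := jensen c (fun i => sg N (t + x i) - sg N (t + y i)) hc
          (show 1 ≤ 2 * p by omega)
        simp only [Even.pow_abs (even_two_mul p)] at h3
        exact h3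
    _ = ∑ i, |c i| * ∫ t in (3 * T / 4)..(3 * T), (sg N (t + x i) - sg N (t + y i)) ^ (2 * p) := by
        rw [intervalIntegral.integral_finsetSum fun i _ => (h1 i).ii _ _]
        simp_rw [intervalIntegral.integral_const_mul]
    _ ≤ ∑ i, |c i| * (C * T * (1 + Real.log (1 + E)) ^ p) := by
        refine Finset.sum_le_sum fun i _ => mul_le_mul_of_nonneg_left ?_ (abs_nonneg _)
        refine (hM _ _ (hx i) (hy i)).trans ?_
        have h4 : 0 ≤ |x i - y i| * Real.log T := by positivity
        have h5 : 0 ≤ Real.log (1 + |x i - y i| * Real.log T) := Real.log_nonneg (by linarith)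
        have h6 : Real.log (1 + |x i - y i| * Real.log T) ≤ Real.log (1 + E) :=
          Real.log_le_log (by linarith) (by linarith [hxy i])
        refine mul_le_mul_of_nonneg_left ?_ (by positivity)
        exact pow_le_pow_left₀ (by linarith) (by linarith) p
    _ = (∑ i, |c i|) * (C * T * (1 + Real.log (1 + E)) ^ p) := by rw [Finset.sum_mul]
    _ ≤ 1 * ((C + 3) * T * (1 + Real.log (1 + E)) ^ p) := by
        have h7 : 0 ≤ T * (1 + Real.log (1 + E)) ^ p := by positivity
        refine mul_le_mul hc ?_ (by positivity) zero_le_one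
        nlinarith
    _ = (C + 3) * T * (1 + Real.log (1 + E)) ^ p := one_mul _

/-- the window mean over `K` short windows -/
theorem window {h : ℝ → ℝ} (H : LB h) (y w : ℝ) (K : ℕ) :
    ∫ t in (y - K * w)..y, h t = ∑ j ∈ Finset.range K, ∫ t in (y - w)..y, h (t + -(j * w)) := by
  induction K with
  | zero => simp
  | succ K ih =>
    rw [Finset.sum_range_succ, ← ih, intervalIntegral.integral_comp_add_right]
    have e1 : y - w + -(K * w) = y - ((K + 1 : ℕ) : ℝ) * w := by push_cast; ring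
    have e2 : y + -(K * w) = y - K * w := by ring
    rw [e1, e2]
    have h3 := intervalIntegral.integral_add_adjacent_intervals
      (H.ii (y - ((K + 1 : ℕ) : ℝ) * w) (y - K * w)) (H.ii (y - K * w) y)
    linarith

end

end Pool.Agent.U251.MV4
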