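import Mathlib
import Pool.Agent.U251.MV4.A

/-!
# Project MV4, package CW: short windows against long windows (by helper251)
-/

set_option autoImplicit false

namespace Pool.Agent.U251.MV4

open MeasureTheory Filter Topology Set Pool.Agent.U398.MV
open scoped Nat

noncomputable section

/-- the difference of the means over a long and a short window -/
theorem PA_diff {N : ℝ → ℕ} {g : ℕ → ℝ} {h : ℝ → ℝ} (H : LB h) {T w : ℝ} (hw : 0 < w) {K : ℕ}
    (hK : 1 ≤ K) {M : ℝ} (hM : ∀ j < K, PA N g T w (fun _ t => |h (t + -(j * w)) - h t|) ≤ M) :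
    |PA N g T (K * w) (fun _ t => h t) - PA N g T w (fun _ t => h t)| ≤ M := by
  have hK0 : (0 : ℝ) < K := by exact_mod_cast hK
  have e1 : PA N g T (K * w) (fun _ t => h t) =
      1 / K * ∑ j ∈ Finset.range K, PA N g T w (fun _ t => h (t + -(j * w))) := by
    unfold PA
    rw [Finset.sum_comm, Finset.mul_sum]
    refine Finset.sum_congr rfl fun n _ => ?_
    rw [window H, Finset.mul_sum, Finset.mul_sum]
    refine Finset.sum_congr rfl fun j _ => ?_
    field_simp
  have e2 : PA N g T w (fun _ t => h t) =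
      1 / K * ∑ j ∈ Finset.range K, PA N g T w (fun _ t => h t) := by
    rw [Finset.sum_const, Finset.card_range, nsmul_eq_mul]
    field_simp
  have e3 : ∀ j : ℕ, |PA N g T w (fun _ t => h (t + -(j * w))) - PA N g T w (fun _ t => h t)| ≤
      PA N g T w (fun _ t => |h (t + -(j * w)) - h t|) := by
    intro j
    unfold PA
    rw [← Finset.sum_sub_distrib]
    refine (Finset.abs_sum_le_sum_abs _ _).trans (Finset.sum_le_sum fun n _ => ?_)
    rw [← mul_sub, abs_mul, abs_of_pos (show 0 < 1 / w by positivity)]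
    refine mul_le_mul_of_nonneg_left ?_ (by positivity)
    rw [← intervalIntegral.integral_sub ((H.shift _).ii _ _) (H.ii _ _)]
    exact intervalIntegral.abs_integral_le_integral_abs (by linarith)
  rw [e1]
  rw [e2]
  rw [← mul_sub, ← Finset.sum_sub_distrib, abs_mul, abs_of_pos (show 0 < 1 / (K : ℝ) by positivity)]
  have e4 : |∑ j ∈ Finset.range K, (PA N g T w (fun _ t => h (t + -(j * w))) -
      PA N g T w (fun _ t => h t))| ≤ K * M := by
    refine (Finset.abs_sum_le_sum_abs _ _).trans ?_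
    refine (Finset.sum_le_sum fun j hj => (e3 j).trans (hM j (Finset.mem_range.1 hj))).trans ?_
    rw [Finset.sum_const, Finset.card_range, nsmul_eq_mul]
  calc 1 / (K : ℝ) * |∑ j ∈ Finset.range K, (PA N g T w (fun _ t => h (t + -(j * w))) -
      PA N g T w (fun _ t => h t))| ≤ 1 / K * (K * M) :=
        mul_le_mul_of_nonneg_left e4 (by positivity)
    _ = M := by field_simp

/-- the pointwise inequality -/
theorem ptw_pow (x y : ℝ) (k : ℕ) {θ : ℝ} (hθ : 0 < θ) : (x ^ (k + 1) - y ^ (k + 1)) ^ 2 ≤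
    ((k : ℝ) + 1) ^ 2 * (θ * (x - y) ^ 4 + (x ^ (4 * k) + y ^ (4 * k)) / θ) := by
  have h1 := abs_pow_sub_pow_le x y (k + 1)
  set M := max |x| |y| with hM
  have hM0 : 0 ≤ M := le_max_of_le_left (abs_nonneg _)
  have h2 : (x ^ (k + 1) - y ^ (k + 1)) ^ 2 ≤ (|x - y| * ((k + 1 : ℕ) : ℝ) * M ^ k) ^ 2 := by
    rw [← sq_abs]
    refine pow_le_pow_left₀ (abs_nonneg _) ?_ 2
    simpa using h1
  have h3 : M ^ (4 * k) ≤ x ^ (4 * k) + y ^ (4 * k) := by
    have ev : Even (4 * k) := ⟨2 * k, by ring⟩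
    have q1 : 0 ≤ x ^ (4 * k) := ev.pow_nonneg x
    have q2 : 0 ≤ y ^ (4 * k) := ev.pow_nonneg y
    rcases le_total |x| |y| with h | h
    · rw [hM, max_eq_right h, ev.pow_abs]
      linarith
    · rw [hM, max_eq_left h, ev.pow_abs]
      linarith
  have h4 : (x - y) ^ 2 * M ^ (2 * k) ≤ θ * (x - y) ^ 4 + M ^ (4 * k) / θ := by
    have e1 : M ^ (4 * k) = (M ^ (2 * k)) ^ 2 := by rw [← pow_mul]; ring_nf
    have e2 : (x - y) ^ 4 = ((x - y) ^ 2) ^ 2 := by ring
    rw [e1, e2]
    set a := (x - y) ^ 2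
    set b := M ^ (2 * k)
    have e3 : θ * a ^ 2 + b ^ 2 / θ - a * b = (θ * a ^ 2 + b ^ 2 / θ - 2 * (a * b)) + a * b := by ring
    have e4 : θ * a ^ 2 + b ^ 2 / θ - 2 * (a * b) = (θ * a - b) ^ 2 / θ := by
      field_simp
      ring
    have e5 : 0 ≤ (θ * a - b) ^ 2 / θ := by positivity
    have e6 : 0 ≤ a * b := by positivity
    linarith
  have h5 : (|x - y| * ((k + 1 : ℕ) : ℝ) * M ^ k) ^ 2 =
      ((k : ℝ) + 1) ^ 2 * ((x - y) ^ 2 * M ^ (2 * k)) := by
    rw [mul_pow, mul_pow, sq_abs, ← pow_mul]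
    push_cast
    ring_nf
  rw [h5] at h2
  refine h2.trans (mul_le_mul_of_nonneg_left (h4.trans ?_) (by positivity))
  have := div_le_div_of_nonneg_right h3 hθ.le
  linarith

theorem log_le8 {x y : ℝ} (hx : 0 ≤ x) (hy : 1 ≤ y) (h : 1 + x ≤ 8 * y) :
    1 + Real.log (1 + x) ≤ (1 + Real.log 8) * (1 + Real.log y) := by
  have h1 : Real.log (1 + x) ≤ Real.log 8 + Real.log y := by
    rw [← Real.log_mul (by norm_num) (by positivity)]
    exact Real.log_le_log (by linarith) h
  have h2 : 0 ≤ Real.log 8 := Real.log_nonneg (by norm_num)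
  have h3 : 0 ≤ Real.log y := Real.log_nonneg hy
  nlinarith [mul_nonneg h2 h3]

/-- **package CW** -/
theorem t_CW : J_CW := by
  intro hPU N g C1 hC1 hcnt hmom k A hA
  obtain ⟨Cu, Tu, hCu, hTu, hU⟩ := hPU N g C1 hcnt hmom
  rcases Nat.eq_zero_or_pos k with hk | hk
  · subst hk
    refine ⟨1, 10, one_pos, le_rfl, fun T hT R K hR _ hK _ m c a _ _ _ => ?_⟩
    have hL : 0 < Real.log T := Real.log_pos (by linarith)
    have hK0 : (0 : ℝ) < K := by exact_mod_cast hK
    have hR0 : (1 : ℝ) ≤ R := by exact_mod_cast hR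
    have e : ∀ w : ℝ, 0 < w → PA N g T w (fun _ t =>
        Gf N c (fun i => 2 * Real.pi * a i / Real.log T) t ^ 0) =
        ((Finset.Ioc (N T) (N (2 * T))).card : ℝ) := by
      intro w hw
      unfold PA
      simp only [pow_zero, intervalIntegral.integral_const, smul_eq_mul, mul_one]
      rw [← nsmul_one, ← Finset.sum_const]
      refine Finset.sum_congr rfl fun n _ => ?_
      field_simp
      ring
    rw [e _ (by positivity), e _ (by positivity), sub_self, abs_zero]
    have h1 : 0 ≤ Real.log (R : ℝ) := Real.log_nonneg hR0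
    have h2 : 0 ≤ Real.log (1 + (K : ℝ)) := Real.log_nonneg (by linarith)
    positivity
  obtain ⟨k', rfl⟩ : ∃ k', k = k' + 1 := ⟨k - 1, by omega⟩
  obtain ⟨Ca, Ta, hCa, hTa, hMa⟩ := hmom.1 2 (2 * Real.pi * (A + 1))
  obtain ⟨Cb, Tb, hCb, hTb, hMb⟩ := hmom.1 (2 * k') (2 * Real.pi * (A + 1))
  have hl8 : 0 ≤ Real.log 8 := Real.log_nonneg (by norm_num)
  obtain ⟨c₀, hc₀⟩ : ∃ c₀ : ℝ, c₀ = 1 + Real.log 8 := ⟨_, rfl⟩
  have hc₀1 : 1 ≤ c₀ := by rw [hc₀]; linarith
  -- the constant of the second moment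
  obtain ⟨C', hC'⟩ : ∃ C' : ℝ, C' = ((k' : ℝ) + 1) ^ 2 * ((Ca + 3) * c₀ ^ 2 +
    2 * ((Cb + 3) * c₀ ^ (2 * k'))) := ⟨_, rfl⟩
  have hC'0 : 0 < C' := by rw [hC']; positivity
  refine ⟨Cu * Real.sqrt C', max Tu (max Ta Tb), by positivity, le_max_of_le_left hTu, ?_⟩
  intro T hT R K hR hRA hK hKL m c a hc1 hc0 ha
  have hTu' : Tu ≤ T := (le_max_left _ _).trans hT
  have hTa' : Ta ≤ T := ((le_max_left _ _).trans (le_max_right _ _)).trans hT
  have hTb' : Tb ≤ T := ((le_max_right _ _).trans (le_max_right _ _)).trans hT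
  have hT10 : 10 ≤ T := hTu.trans hTu'
  have hL : 0 < Real.log T := Real.log_pos (by linarith)
  have hK0 : (0 : ℝ) < K := by exact_mod_cast hK
  have hK1 : (1 : ℝ) ≤ K := by exact_mod_cast hK
  have hR1 : (1 : ℝ) ≤ R := by exact_mod_cast hR
  have hpi := Real.pi_pos
  have hpi4 : Real.pi < 3.15 := Real.pi_lt_d2
  obtain ⟨w, hw⟩ : ∃ w : ℝ, w = 2 * Real.pi / Real.log T := ⟨_, rfl⟩
  have hw0 : 0 < w := by rw [hw]; positivity
  have hwL : w * Real.log T = 2 * Real.pi := by rw [hw]; field_simp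
  have hW : 2 * Real.pi * K / Real.log T = K * w := by rw [hw]; ring
  have hD : 0 ≤ Real.log (1 + (K : ℝ)) := Real.log_nonneg (by linarith)
  have hQ : 0 ≤ Real.log (R : ℝ) := Real.log_nonneg hR1
  obtain ⟨D, hDd⟩ : ∃ D : ℝ, D = 1 + Real.log (1 + (K : ℝ)) := ⟨_, rfl⟩
  obtain ⟨Q, hQd⟩ : ∃ Q : ℝ, Q = 1 + Real.log (R : ℝ) := ⟨_, rfl⟩
  have hD0 : 0 < D := by rw [hDd]; linarith
  have hQ0 : 0 < Q := by rw [hQd]; linarith
  set x : Fin m → ℝ := fun i => 2 * Real.pi * a i / Real.log T with hx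
  have hx0 : ∀ i, 0 ≤ x i := fun i => by rw [hx]; positivity
  have hxL : ∀ i, x i * Real.log T = 2 * Real.pi * a i := fun i => by
    rw [hx]
    field_simp
  have haR : ∀ i, (a i : ℝ) ≤ R := fun i => by exact_mod_cast ha i
  have hxR : ∀ i, x i * Real.log T ≤ 2 * Real.pi * R := fun i => by
    rw [hxL]
    exact mul_le_mul_of_nonneg_left (haR i) (by positivity)
  have hxA : ∀ i, x i ≤ 2 * Real.pi * A := fun i => by
    have h1 : x i * Real.log T ≤ 2 * Real.pi * A * Real.log T := by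
      refine (hxR i).trans ?_
      have := mul_le_mul_of_nonneg_left hRA (show 0 ≤ 2 * Real.pi by positivity)
      linarith
    exact le_of_mul_le_mul_right h1 hL
  have hG : LB (Gf N c x) := LB_Gf hcnt.mono c x
  -- the shifts
  have hz : ∀ j < K, 0 ≤ (j : ℝ) * w ∧ (j : ℝ) * w ≤ 2 * Real.pi ∧
      (j : ℝ) * w * Real.log T ≤ 2 * Real.pi * K := by
    intro j hj
    have hjK : (j : ℝ) ≤ K := by exact_mod_cast hj.le
    have h1 : (j : ℝ) * w * Real.log T ≤ 2 * Real.pi * K := by
      rw [mul_assoc, hwL]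
      have := mul_le_mul_of_nonneg_left hjK (show 0 ≤ 2 * Real.pi by positivity)
      linarith
    refine ⟨by positivity, ?_, h1⟩
    have h2 : (j : ℝ) * w * Real.log T ≤ 2 * Real.pi * Real.log T :=
      h1.trans (mul_le_mul_of_nonneg_left hKL (by positivity))
    exact le_of_mul_le_mul_right h2 hL
  have hbound : ∀ j < K, PA N g T w (fun _ t =>
      |Gf N c x (t + -(j * w)) ^ (k' + 1) - Gf N c x t ^ (k' + 1)|) ≤
      Cu * Real.log T * Real.sqrt T * Real.sqrt (C' * T * D * Q ^ k') := by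
    intro j hj
    obtain ⟨z0, z1, z2⟩ := hz j hj
    obtain ⟨z, hzd⟩ : ∃ z : ℝ, z = -(j * w) := ⟨_, rfl⟩
    rw [← hzd]
    have hzabs : |z| = j * w := by rw [hzd, abs_neg, abs_of_nonneg z0]
    have hGz : LB fun t => Gf N c x (t + z) := hG.shift z
    have hdiff : LB fun t => Gf N c x (t + z) ^ (k' + 1) - Gf N c x t ^ (k' + 1) :=
      (hGz.pow _).sub (hG.pow _)
    have h1 := hU T hTu' (fun t => |Gf N c x (t + z) ^ (k' + 1) - Gf N c x t ^ (k' + 1)|)
      (fun t => abs_nonneg _) hdiff.abs.meas.aestronglyMeasurable (by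
        have := ((hdiff.abs.pow 2).ii (3 * T / 4) (3 * T))
        rw [intervalIntegrable_iff_integrableOn_Icc_of_le (by linarith)] at this
        exact this)
    rw [← hw] at h1
    refine h1.trans (mul_le_mul_of_nonneg_left (Real.sqrt_le_sqrt ?_) (by positivity))
    -- the second moment
    obtain ⟨θ, hθd⟩ : ∃ θ : ℝ, θ = Q ^ k' / D := ⟨_, rfl⟩
    have hθ : 0 < θ := by rw [hθd]; positivity
    have p1 : (∫ t in (3 * T / 4)..(3 * T), (Gf N c x (t + z) - Gf N c x t) ^ 4) ≤
        (Ca + 3) * T * (c₀ * D) ^ 2 := by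
      have q := mom_lin hcnt.mono (p := 2) (B := 2 * Real.pi * (A + 1)) hCa hT10
        (fun x y hx hy => hMa T hTa' x y hx hy) c (fun i => z + x i) x hc1
        (fun i => by
          refine (abs_add_le _ _).trans ?_
          rw [hzabs, abs_of_nonneg (hx0 i)]
          linarith [hxA i])
        (fun i => by
          rw [abs_of_nonneg (hx0 i)]
          linarith [hxA i]) (E := 2 * Real.pi * K) (by positivity)
        (fun i => by
          rw [add_sub_cancel_right, hzabs]
          exact z2)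
      have e1 : ∀ t, Gf N c x (t + z) - Gf N c x t =
          ∑ i, c i * (sg N (t + (z + x i)) - sg N (t + x i)) := by
        intro t
        unfold Gf
        rw [← Finset.sum_sub_distrib]
        refine Finset.sum_congr rfl fun i _ => ?_
        rw [add_assoc]
        ring
      simp_rw [e1]
      refine q.trans ?_
      have e2 : 1 + Real.log (1 + 2 * Real.pi * K) ≤ c₀ * D := by
        rw [hc₀, hDd]
        have h8 : Real.pi * K ≤ 3.15 * K := mul_le_mul_of_nonneg_right hpi4.le hK0.le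
        exact log_le8 (by positivity) (by linarith) (by linarith)
      have e3 : 0 ≤ Real.log (1 + 2 * Real.pi * K) := Real.log_nonneg (by
        have : 0 ≤ 2 * Real.pi * K := by positivity
        linarith)
      exact mul_le_mul_of_nonneg_left (pow_le_pow_left₀ (by linarith) e2 2) (by positivity)
    have p2 : ∀ z' : ℝ, |z'| ≤ 2 * Real.pi →
        (∫ t in (3 * T / 4)..(3 * T), Gf N c x (t + z') ^ (4 * k')) ≤
        (Cb + 3) * T * (c₀ * Q) ^ (2 * k') := by
      intro z' hz'
      have q := mom_lin hcnt.mono (p := 2 * k') (B := 2 * Real.pi * (A + 1)) hCb hT10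
        (fun x y hx hy => hMb T hTb' x y hx hy) c (fun i => z' + x i) (fun _ => z') hc1
        (fun i => by
          refine (abs_add_le _ _).trans ?_
          rw [abs_of_nonneg (hx0 i)]
          linarith [hxA i])
        (fun i => by
          have : 0 ≤ 2 * Real.pi * A := by positivity
          linarith) (E := 2 * Real.pi * R) (by positivity)
        (fun i => by
          rw [add_sub_cancel_left, abs_of_nonneg (hx0 i)]
          exact hxR i)
      have e1 : ∀ t, Gf N c x (t + z') =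
          ∑ i, c i * (sg N (t + (z' + x i)) - sg N (t + z')) := by
        intro t
        unfold Gf
        have e0 : ∑ i, c i * (sg N (t + (z' + x i)) - sg N (t + z')) =
            ∑ i, c i * sg N (t + (z' + x i)) - (∑ i, c i) * sg N (t + z') := by
          rw [Finset.sum_mul, ← Finset.sum_sub_distrib]
          exact Finset.sum_congr rfl fun i _ => by ring
        rw [e0, hc0, zero_mul, sub_zero]
        exact Finset.sum_congr rfl fun i _ => by rw [add_assoc]
      have e4 : 4 * k' = 2 * (2 * k') := by ring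
      rw [e4]
      simp_rw [e1]
      refine q.trans ?_
      have e2 : 1 + Real.log (1 + 2 * Real.pi * R) ≤ c₀ * Q := by
        rw [hc₀, hQd]
        have h8 : Real.pi * R ≤ 3.15 * R := mul_le_mul_of_nonneg_right hpi4.le (by linarith)
        exact log_le8 (by positivity) hR1 (by linarith)
      have e3 : 0 ≤ Real.log (1 + 2 * Real.pi * R) := Real.log_nonneg (by
        have : 0 ≤ 2 * Real.pi * R := by positivity
        linarith)
      exact mul_le_mul_of_nonneg_left (pow_le_pow_left₀ (by linarith) e2 _) (by positivity)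
    have p3 := p2 z (by rw [hzabs]; exact z1)
    have p4 := p2 0 (by rw [abs_zero]; positivity)
    simp only [add_zero] at p4
    have L1 : LB fun t => (Gf N c x (t + z) - Gf N c x t) ^ 4 := (hGz.sub hG).pow 4
    have L2 : LB fun t => Gf N c x (t + z) ^ (4 * k') := hGz.pow _
    have L3 : LB fun t => Gf N c x t ^ (4 * k') := hG.pow _
    calc (∫ t in (3 * T / 4)..(3 * T),
          |Gf N c x (t + z) ^ (k' + 1) - Gf N c x t ^ (k' + 1)| ^ 2)
        ≤ ∫ t in (3 * T / 4)..(3 * T), ((k' : ℝ) + 1) ^ 2 *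
          (θ * (Gf N c x (t + z) - Gf N c x t) ^ 4 +
            θ⁻¹ * (Gf N c x (t + z) ^ (4 * k') + Gf N c x t ^ (4 * k'))) := by
          refine intervalIntegral.integral_mono_on (by linarith) ((hdiff.abs.pow 2).ii _ _)
            ((((L1.cmul θ).add ((L2.add L3).cmul θ⁻¹)).cmul _).ii _ _) fun t _ => ?_
          have := ptw_pow (Gf N c x (t + z)) (Gf N c x t) k' hθ
          rw [div_eq_inv_mul] at this
          rw [sq_abs]
          exact this
      _ = ((k' : ℝ) + 1) ^ 2 * (θ * (∫ t in (3 * T / 4)..(3 * T),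
            (Gf N c x (t + z) - Gf N c x t) ^ 4) +
            θ⁻¹ * ((∫ t in (3 * T / 4)..(3 * T), Gf N c x (t + z) ^ (4 * k')) +
              ∫ t in (3 * T / 4)..(3 * T), Gf N c x t ^ (4 * k'))) := by
          rw [intervalIntegral.integral_const_mul,
            intervalIntegral.integral_add ((L1.cmul θ).ii _ _) (((L2.add L3).cmul θ⁻¹).ii _ _),
            intervalIntegral.integral_const_mul, intervalIntegral.integral_const_mul,
            intervalIntegral.integral_add (L2.ii _ _) (L3.ii _ _)]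
      _ ≤ ((k' : ℝ) + 1) ^ 2 * (θ * ((Ca + 3) * T * (c₀ * D) ^ 2) +
            θ⁻¹ * ((Cb + 3) * T * (c₀ * Q) ^ (2 * k') + (Cb + 3) * T * (c₀ * Q) ^ (2 * k'))) := by
          refine mul_le_mul_of_nonneg_left (add_le_add ?_ ?_) (by positivity)
          · exact mul_le_mul_of_nonneg_left p1 hθ.le
          · exact mul_le_mul_of_nonneg_left (add_le_add p3 p4) (by positivity)
      _ = C' * T * D * Q ^ k' := by
          rw [hθd, hC', mul_pow, mul_pow, pow_mul Q, inv_div]
          have e5 : (Q ^ 2) ^ k' = Q ^ k' * Q ^ k' := by rw [← mul_pow, ← pow_two]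
          rw [e5]
          field_simp
          ring
  have hfin := PA_diff (N := N) (g := g) (T := T) (hG.pow (k' + 1)) hw0 hK hbound
  rw [hW, ← hw]
  refine hfin.trans (le_of_eq ?_)
  have s1 : Real.sqrt (C' * T * D * Q ^ k') =
      Real.sqrt C' * Real.sqrt T * Real.sqrt D * Real.sqrt (Q ^ k') := by
    rw [Real.sqrt_mul (by positivity), Real.sqrt_mul (by positivity), Real.sqrt_mul (by positivity)]
  have s2 : Real.sqrt (Q ^ k') = Q ^ ((((k' + 1 : ℕ) : ℝ) - 1) / 2) := by
    rw [Real.sqrt_eq_rpow, ← Real.rpow_natCast, ← Real.rpow_mul hQ0.le]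
    congr 1
    push_cast
    ring
  have s3 : Real.sqrt D = D ^ (1 / 2 : ℝ) := Real.sqrt_eq_rpow D
  have s4 : Real.sqrt T * Real.sqrt T = T := Real.mul_self_sqrt (by linarith)
  rw [s1, s2, s3, ← hDd, ← hQd]
  calc Cu * Real.log T * Real.sqrt T * (Real.sqrt C' * Real.sqrt T * D ^ (1 / 2 : ℝ) *
        Q ^ ((((k' + 1 : ℕ) : ℝ) - 1) / 2)) =
      Cu * Real.sqrt C' * ((Real.sqrt T * Real.sqrt T) * Real.log T) *
        Q ^ ((((k' + 1 : ℕ) : ℝ) - 1) / 2) * D ^ (1 / 2 : ℝ) := by ring
    _ = _ := by rw [s4]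

end

end Pool.Agent.U251.MV4
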